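import Pool.Agent.K1H64.ST.Defs

/-!
# Exponential tails (task S_TAIL): property (τ) on the grid
-/

set_option autoImplicit false

noncomputable section

namespace Pool.Agent.K1H44.ST

open Finset hiding box
open Pool.Agent.K1H64.ST

/-- The weight of a pair (coordinate, bit). -/
def mm (M : ℕ) (t : ℤ) (s : Bool) : ℝ := if sn s * t < 0 then Real.exp (|(t : ℝ)| / (4 * M)) else 1

lemma mm_nonneg (M : ℕ) (t : ℤ) (s : Bool) : 0 ≤ mm M t s := by
  unfold mm; split_ifs
  · exact (Real.exp_pos _).le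
  · exact zero_le_one

lemma sum_box (M : ℕ) (F : ℤ → ℝ) :
    ∑ t ∈ box M, F t = ∑ r ∈ range M, F (2 * (r : ℤ) + 1) + ∑ r ∈ range M, F (-(2 * (r : ℤ) + 1)) := by
  have h1 : ∑ r ∈ range M, F (2 * (r : ℤ) + 1) = ∑ t ∈ (box M).filter (fun t => 0 < t), F t := by
    refine Finset.sum_nbij (fun r => 2 * (r : ℤ) + 1) ?_ ?_ ?_ (fun _ _ => rfl)
    · intro r hr
      simp only [box, mem_filter, mem_Icc, mem_range] at hr ⊢
      refine ⟨⟨⟨by omega, by omega⟩, ⟨r, rfl⟩⟩, by omega⟩
    · intro a _ b _ h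
      simp only at h
      omega
    · intro t ht
      simp only [box, coe_filter, mem_filter, mem_Icc, Set.mem_ofPred_eq] at ht
      obtain ⟨⟨⟨h1, h2⟩, ⟨k, hk⟩⟩, h3⟩ := ht
      refine ⟨k.toNat, ?_, ?_⟩
      · simp only [coe_range, Set.mem_Iio]; omega
      · simp only; omega
  have h2 : ∑ r ∈ range M, F (-(2 * (r : ℤ) + 1)) = ∑ t ∈ (box M).filter (fun t => ¬ 0 < t), F t := by
    refine Finset.sum_nbij (fun r => -(2 * (r : ℤ) + 1)) ?_ ?_ ?_ (fun _ _ => rfl)
    · intro r hr
      simp only [box, mem_filter, mem_Icc, mem_range] at hr ⊢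
      refine ⟨⟨⟨by omega, by omega⟩, ⟨-(r : ℤ) - 1, by ring⟩⟩, by omega⟩
    · intro a _ b _ h
      simp only at h
      omega
    · intro t ht
      simp only [box, coe_filter, mem_filter, mem_Icc, Set.mem_ofPred_eq] at ht
      obtain ⟨⟨⟨h1, h2⟩, ⟨k, hk⟩⟩, h3⟩ := ht
      refine ⟨(-k - 1).toNat, ?_, ?_⟩
      · simp only [coe_range, Set.mem_Iio]; omega
      · simp only; omega
  rw [h1, h2, Finset.sum_filter_add_sum_filter_not]

lemma card_box (M : ℕ) : (box M).card = 2 * M := by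
  have h := sum_box M (fun _ => 1)
  simp only [sum_const, card_range, nsmul_eq_mul, mul_one] at h
  have h' : (((box M).card : ℕ) : ℝ) = ((2 * M : ℕ) : ℝ) := by push_cast; linarith
  exact_mod_cast h'

lemma card_grid (n M : ℕ) : (grid n M).card = (2 * M) ^ n := by
  simp [grid, Fintype.card_piFinset, card_box]

lemma exp_sum (M : ℕ) (hM : 1 ≤ M) (k : ℕ) :
    ∑ r ∈ range k, Real.exp ((2 * r + 1) / (4 * M)) ≤ 2 * M * (Real.exp (k / (2 * M)) - 1) := by
  have hM' : (0 : ℝ) < M := by exact_mod_cast hM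
  induction k with
  | zero => simp
  | succ k ih =>
    rw [Finset.sum_range_succ]
    have key : Real.exp ((2 * k + 1) / (4 * M)) ≤
        2 * M * (Real.exp (((k + 1 : ℕ) : ℝ) / (2 * M)) - Real.exp (k / (2 * M))) := by
      have e1 : ((k + 1 : ℕ) : ℝ) / (2 * M) = (2 * k + 1) / (4 * M) + 1 / (4 * M) := by
        push_cast; field_simp; ring
      have e2 : (k : ℝ) / (2 * M) = (2 * k + 1) / (4 * M) + -(1 / (4 * M)) := by
        field_simp; ring
      rw [e1, e2, Real.exp_add, Real.exp_add]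
      have hu : (0 : ℝ) ≤ 1 / (4 * M) := by positivity
      have hs : (1 : ℝ) / (4 * M) ≤ Real.sinh (1 / (4 * M)) := Real.self_le_sinh_iff.2 hu
      rw [Real.sinh_eq] at hs
      have hE := Real.exp_pos ((2 * (k : ℝ) + 1) / (4 * M))
      have h4 : 1 ≤ 2 * (M : ℝ) * (Real.exp (1 / (4 * M)) - Real.exp (-(1 / (4 * M)))) := by
        have : 2 * (1 / (4 * (M : ℝ))) ≤ Real.exp (1 / (4 * M)) - Real.exp (-(1 / (4 * M))) := by
          linarith
        calc (1 : ℝ) = 2 * M * (2 * (1 / (4 * (M : ℝ)))) := by field_simp; norm_num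
          _ ≤ _ := by apply mul_le_mul_of_nonneg_left this; positivity
      calc Real.exp ((2 * (k : ℝ) + 1) / (4 * M)) = Real.exp ((2 * (k : ℝ) + 1) / (4 * M)) * 1 := by ring
        _ ≤ Real.exp ((2 * (k : ℝ) + 1) / (4 * M)) *
            (2 * (M : ℝ) * (Real.exp (1 / (4 * M)) - Real.exp (-(1 / (4 * M))))) := by
            apply mul_le_mul_of_nonneg_left h4 hE.le
        _ = _ := by ring
    linarith

/-- The numerical inequality. -/
lemma num (M : ℕ) (hM : 1 ≤ M) (z : ℝ) (hz1 : 1 ≤ z) (hz2 : z ≤ Real.exp (1 / 2)) (f : ℕ → ℝ) (H : ℝ)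
    (hH : 0 ≤ H) (h2 : ∀ r < M, f r ≤ H * Real.exp ((2 * r + 1) / (4 * M)))
    (h3 : ∀ r < M, f r ≤ H * z) :
    (M * H + ∑ r ∈ range M, f r) * (1 + 1 / z) ≤ 4 * (M + 1) * H := by
  have hM' : (0 : ℝ) < M := by exact_mod_cast hM
  have hz0 : 0 < z := by linarith
  set y := 2 * Real.log z with hy
  have hlog0 : 0 ≤ Real.log z := Real.log_nonneg hz1
  have hlog1 : Real.log z ≤ 1 / 2 := by
    have := Real.log_le_log hz0 hz2
    rwa [Real.log_exp] at this
  set k := ⌊y * M⌋₊ with hk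
  have hk1 : (k : ℝ) ≤ y * M := Nat.floor_le (by positivity)
  have hk2 : y * M < k + 1 := Nat.lt_floor_add_one _
  have hkM : k ≤ M := by
    have : (k : ℝ) ≤ M := by nlinarith
    exact_mod_cast this
  have hsum : ∑ r ∈ range M, f r ≤ H * (2 * M * (z - 1)) + (M - k) * (H * z) := by
    have hsplit : ∑ r ∈ range M, f r = ∑ r ∈ range k, f r + ∑ r ∈ Ico k M, f r := by
      rw [Finset.sum_range_add_sum_Ico _ hkM]
    rw [hsplit]
    have a1 : ∑ r ∈ range k, f r ≤ H * (2 * M * (z - 1)) := by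
      calc ∑ r ∈ range k, f r ≤ ∑ r ∈ range k, H * Real.exp ((2 * r + 1) / (4 * M)) := by
            apply Finset.sum_le_sum
            intro r hr
            exact h2 r (lt_of_lt_of_le (mem_range.1 hr) hkM)
        _ = H * ∑ r ∈ range k, Real.exp ((2 * r + 1) / (4 * M)) := by rw [Finset.mul_sum]
        _ ≤ H * (2 * M * (Real.exp (k / (2 * M)) - 1)) := by
            apply mul_le_mul_of_nonneg_left (exp_sum M hM k) hH
        _ ≤ H * (2 * M * (z - 1)) := by
            apply mul_le_mul_of_nonneg_left _ hH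
            have : Real.exp (k / (2 * M)) ≤ z := by
              rw [← Real.le_log_iff_exp_le hz0, div_le_iff₀ (by positivity)]
              rw [hy] at hk1
              linarith
            apply mul_le_mul_of_nonneg_left _ (by positivity)
            linarith
    have a2 : ∑ r ∈ Ico k M, f r ≤ (M - k) * (H * z) := by
      calc ∑ r ∈ Ico k M, f r ≤ ∑ r ∈ Ico k M, H * z := by
            apply Finset.sum_le_sum
            intro r hr
            exact h3 r (mem_Ico.1 hr).2
        _ = (M - k) * (H * z) := by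
            rw [Finset.sum_const, Nat.card_Ico, nsmul_eq_mul, Nat.cast_sub hkM]
    linarith
  have hHz : 0 ≤ H * z := by positivity
  have hsum2 : M * H + ∑ r ∈ range M, f r ≤ H * (M * ((3 - y) * z - 1) + z) := by
    have : (M - k) * (H * z) ≤ (M - y * M + 1) * (H * z) := by
      apply mul_le_mul_of_nonneg_right _ hHz
      linarith
    nlinarith
  have hz3 : z ≤ 3 := by
    have : Real.exp (1 / 2) ≤ 3 := by
      have h1 : Real.exp (1 / 2) ≤ Real.exp 1 := Real.exp_le_exp.2 (by norm_num)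
      have h2 := Real.exp_one_lt_d9
      linarith
    linarith
  have hlog : 2 * (z - 1) / (z + 1) ≤ Real.log z := by
    have := Real.le_log_one_add_of_nonneg (x := z - 1) (by linarith)
    have e : z - 1 + 2 = z + 1 := by ring
    have e' : 1 + (z - 1) = z := by ring
    rwa [e, e'] at this
  have hpoly : ((3 - y) * z - 1) * (1 + 1 / z) ≤ 4 := by
    have h1 : 2 * (z - 1) ≤ Real.log z * (z + 1) := by
      rwa [div_le_iff₀ (by linarith)] at hlog
    have : ((3 - y) * z - 1) * (1 + 1 / z) = ((3 - y) * z - 1) * (z + 1) / z := by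
      field_simp
    rw [this, div_le_iff₀ hz0, hy]
    nlinarith [mul_le_mul_of_nonneg_left h1 hz0.le, sq_nonneg (z - 1)]
  calc (M * H + ∑ r ∈ range M, f r) * (1 + 1 / z)
      ≤ (H * (M * ((3 - y) * z - 1) + z)) * (1 + 1 / z) := by
        apply mul_le_mul_of_nonneg_right hsum2; positivity
    _ = H * (M * (((3 - y) * z - 1) * (1 + 1 / z)) + (z + 1)) := by field_simp
    _ ≤ H * (M * 4 + 4) := by
        apply mul_le_mul_of_nonneg_left _ hH
        have := mul_le_mul_of_nonneg_left hpoly hM'.le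
        linarith
    _ = 4 * (M + 1) * H := by ring

lemma core (M : ℕ) (hM : 1 ≤ M) (Gp Gm : ℕ → ℝ) (p q H : ℝ) (hq : 0 ≤ q) (hqp : q ≤ p) (hH : 0 ≤ H)
    (h1 : ∀ r < M, Gp r * p ≤ H)
    (h2 : ∀ r < M, Gm r * p ≤ H * Real.exp ((2 * r + 1) / (4 * M)))
    (h3 : ∀ r < M, Gm r * q ≤ H) :
    (∑ r ∈ range M, Gp r + ∑ r ∈ range M, Gm r) * (p + q) ≤ 4 * (M + 1) * H := by
  have hM' : (0 : ℝ) < M := by exact_mod_cast hM
  rcases eq_or_lt_of_le (hq.trans hqp) with hp | hp
  · have : q = 0 := le_antisymm (by linarith) hq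
    rw [← hp, this]
    simp only [add_zero, mul_zero]
    positivity
  set β := q / p with hβ
  have hβ0 : 0 ≤ β := by positivity
  have hβ1 : β ≤ 1 := by rw [hβ, div_le_one hp]; exact hqp
  set E := Real.exp (1 / 2 : ℝ) with hE
  have hE0 : 0 < E := Real.exp_pos _
  have hE1 : 1 ≤ E := by
    rw [hE]; exact Real.one_le_exp (by norm_num)
  set β' := max β (1 / E) with hβ'
  have hβ'0 : 0 < β' := lt_of_lt_of_le (by positivity) (le_max_right _ _)
  have hβ'1 : β' ≤ 1 := by
    apply max_le hβ1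
    rw [div_le_one hE0]; exact hE1
  have hz1 : 1 ≤ 1 / β' := by
    rw [le_div_iff₀ hβ'0]; linarith
  have hz2 : 1 / β' ≤ E := by
    rw [div_le_iff₀ hβ'0]
    have : 1 / E ≤ β' := le_max_right _ _
    rw [div_le_iff₀ hE0] at this
    linarith
  have hf3 : ∀ r < M, Gm r * p ≤ H * (1 / β') := by
    intro r hr
    rcases le_total (1 / E) β with hc | hc
    · have e : β' = β := max_eq_left hc
      rw [e]
      have hβpos : 0 < β := lt_of_lt_of_le (by positivity) hc
      rw [mul_one_div, le_div_iff₀ hβpos]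
      have : Gm r * p * β = Gm r * q := by rw [hβ]; field_simp
      rw [this]; exact h3 r hr
    · have e : β' = 1 / E := max_eq_right hc
      rw [e, one_div_one_div]
      refine (h2 r hr).trans ?_
      apply mul_le_mul_of_nonneg_left _ hH
      rw [hE]
      apply Real.exp_le_exp.2
      rw [div_le_iff₀ (by positivity)]
      have : (r : ℝ) + 1 ≤ M := by exact_mod_cast hr
      linarith
  have hnum := num M hM (1 / β') hz1 hz2 (fun r => Gm r * p) H hH h2 hf3
  simp only [one_div_one_div] at hnum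
  have hGp : ∑ r ∈ range M, Gp r * p ≤ M * H := by
    calc ∑ r ∈ range M, Gp r * p ≤ ∑ r ∈ range M, H :=
          Finset.sum_le_sum (fun r hr => h1 r (mem_range.1 hr))
      _ = M * H := by rw [Finset.sum_const, card_range, nsmul_eq_mul]
  -- the total is nonnegative or the claim is trivial
  have hRHS : 0 ≤ 4 * ((M : ℝ) + 1) * H := by positivity
  set S := ∑ r ∈ range M, Gp r + ∑ r ∈ range M, Gm r with hS
  have hSp : S * p ≤ M * H + ∑ r ∈ range M, Gm r * p := by
    rw [hS, add_mul, Finset.sum_mul, Finset.sum_mul]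
    linarith
  rcases le_total S 0 with hneg | hpos
  · calc S * (p + q) ≤ 0 := mul_nonpos_of_nonpos_of_nonneg hneg (by linarith)
      _ ≤ _ := hRHS
  · have hq' : q = p * β := by rw [hβ]; field_simp
    calc S * (p + q) = (S * p) * (1 + β) := by rw [hq']; ring
      _ ≤ (S * p) * (1 + β') := by
          apply mul_le_mul_of_nonneg_left _ (by positivity)
          have : β ≤ β' := le_max_left _ _
          linarith
      _ ≤ (M * H + ∑ r ∈ range M, Gm r * p) * (1 + β') := by
          apply mul_le_mul_of_nonneg_right hSp (by positivity)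
      _ ≤ _ := hnum

lemma one_dim (M : ℕ) (hM : 1 ≤ M) (G : ℤ → ℝ) (W : Bool → ℝ) (H : ℝ) (hW : ∀ s, 0 ≤ W s)
    (hH : 0 ≤ H) (h : ∀ t ∈ box M, ∀ s, G t * W s ≤ H * mm M t s) :
    (∑ t ∈ box M, G t) * (W true + W false) ≤ 4 * (M + 1) * H := by
  have hpos : ∀ r < M, (2 * (r : ℤ) + 1) ∈ box M := by
    intro r hr
    simp only [box, mem_filter, mem_Icc]
    exact ⟨⟨by omega, by omega⟩, ⟨r, rfl⟩⟩
  have hneg : ∀ r < M, -(2 * (r : ℤ) + 1) ∈ box M := by
    intro r hr
    simp only [box, mem_filter, mem_Icc]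
    exact ⟨⟨by omega, by omega⟩, ⟨-(r : ℤ) - 1, by ring⟩⟩
  have m1 : ∀ r : ℕ, mm M (2 * (r : ℤ) + 1) true = 1 := by
    intro r; unfold mm sn; rw [if_neg]; simp only [if_true]; omega
  have m2 : ∀ r : ℕ, mm M (-(2 * (r : ℤ) + 1)) false = 1 := by
    intro r; unfold mm sn; rw [if_neg]; simp only [Bool.false_eq_true, if_false]; omega
  have m3 : ∀ r : ℕ, mm M (2 * (r : ℤ) + 1) false = Real.exp ((2 * r + 1) / (4 * M)) := by
    intro r; unfold mm sn; rw [if_pos]
    · congr 2; push_cast; rw [abs_of_nonneg (by positivity)]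
    · simp only [Bool.false_eq_true, if_false]; omega
  have m4 : ∀ r : ℕ, mm M (-(2 * (r : ℤ) + 1)) true = Real.exp ((2 * r + 1) / (4 * M)) := by
    intro r; unfold mm sn; rw [if_pos]
    · congr 2; push_cast; rw [abs_neg, abs_of_nonneg (by positivity)]
    · simp only [if_true]; omega
  rw [sum_box]
  rcases le_total (W false) (W true) with hc | hc
  · apply core M hM _ _ _ _ H (hW _) hc hH
    · intro r hr; have := h _ (hpos r hr) true; rwa [m1, mul_one] at this
    · intro r hr; have := h _ (hneg r hr) true; rwa [m4] at this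
    · intro r hr; have := h _ (hneg r hr) false; rwa [m2, mul_one] at this
  · rw [add_comm (∑ r ∈ range M, G (2 * (r : ℤ) + 1)), add_comm (W true)]
    apply core M hM _ _ _ _ H (hW _) hc hH
    · intro r hr; have := h _ (hneg r hr) false; rwa [m2, mul_one] at this
    · intro r hr; have := h _ (hpos r hr) false; rwa [m3] at this
    · intro r hr; have := h _ (hpos r hr) true; rwa [m1, mul_one] at this

lemma sum_grid_succ (n M : ℕ) (F : (Fin (n + 1) → ℤ) → ℝ) :
    ∑ x ∈ grid (n + 1) M, F x = ∑ t ∈ box M, ∑ x ∈ grid n M, F (Fin.cons t x) := by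
  rw [← Finset.sum_product']
  symm
  refine Finset.sum_nbij' (fun q : ℤ × (Fin n → ℤ) => (Fin.cons q.1 q.2 : Fin (n + 1) → ℤ))
    (fun x => (x 0, Fin.tail x)) ?_ ?_ ?_ ?_ (fun _ _ => rfl)
  · rintro ⟨t, x⟩ h
    rw [mem_product] at h
    simp only [grid, Fintype.mem_piFinset] at h ⊢
    intro l
    refine Fin.cases ?_ (fun i => ?_) l
    · simpa using h.1
    · simpa using h.2 i
  · intro x h
    simp only [grid, Fintype.mem_piFinset, mem_product] at h ⊢
    exact ⟨h 0, fun l => h l.succ⟩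
  · rintro ⟨t, x⟩ _
    simp
  · intro x _
    simp

lemma sum_cube_succ (n : ℕ) (F : Cube (n + 1) → ℝ) :
    ∑ a, F a = ∑ a : Cube n, F (Fin.cons true a) + ∑ a : Cube n, F (Fin.cons false a) := by
  rw [← (Fin.consEquiv (fun _ : Fin (n + 1) => Bool)).sum_comp F, Fintype.sum_prod_type,
    Fintype.sum_bool]
  rfl

lemma tens (M : ℕ) (hM : 1 ≤ M) : ∀ (n : ℕ) (H : ℝ), 0 ≤ H → ∀ (g : (Fin n → ℤ) → ℝ) (w : Cube n → ℝ),
    (∀ a, 0 ≤ w a) →
    (∀ x ∈ grid n M, ∀ a, g x * w a ≤ H * ∏ l, mm M (x l) (a l)) →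
    (∑ x ∈ grid n M, g x) * (∑ a, w a) ≤ (4 * (M + 1)) ^ n * H := by
  intro n
  induction n with
  | zero =>
    intro H hH g w hw h
    have hx0 : (fun i => i.elim0 : Fin 0 → ℤ) ∈ grid 0 M := by
      simp only [grid, Fintype.mem_piFinset]
      intro l; exact l.elim0
    have h0 : grid 0 M = {(fun i => i.elim0 : Fin 0 → ℤ)} :=
      Finset.eq_singleton_iff_unique_mem.2 ⟨hx0, fun x _ => Subsingleton.elim _ _⟩
    rw [h0, Finset.sum_singleton, Fintype.sum_subsingleton w (fun i => i.elim0)]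
    have := h _ hx0 (fun i => i.elim0)
    rw [Fin.prod_univ_zero, mul_one] at this
    rw [pow_zero, one_mul]; exact this
  | succ n ih =>
    intro H hH g w hw h
    rw [sum_grid_succ, sum_cube_succ]
    have hmain := one_dim M hM (fun t => ∑ x ∈ grid n M, g (Fin.cons t x))
      (fun s => ∑ a : Cube n, w (Fin.cons s a)) ((4 * (M + 1)) ^ n * H)
      (fun s => Finset.sum_nonneg (fun a _ => hw _)) (by positivity) ?_
    · refine hmain.trans (le_of_eq ?_)
      rw [pow_succ]; ring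
    · intro t ht s
      have := ih (H * mm M t s) (mul_nonneg hH (mm_nonneg _ _ _)) (fun x => g (Fin.cons t x))
        (fun a => w (Fin.cons s a)) (fun a => hw _) ?_
      · refine this.trans (le_of_eq ?_); ring
      · intro x hx a
        have hcons : (Fin.cons t x : Fin (n + 1) → ℤ) ∈ grid (n + 1) M := by
          simp only [grid, Fintype.mem_piFinset] at hx ⊢
          intro l
          refine Fin.cases ?_ (fun i => ?_) l
          · simpa using ht
          · simpa using hx i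
        have h' := h _ hcons (Fin.cons s a)
        rw [Fin.prod_univ_succ] at h'
        simp only [Fin.cons_zero, Fin.cons_succ] at h'
        refine h'.trans (le_of_eq ?_); ring

variable {n : ℕ} {A : Finset (Cube n)}

/-- `|x|_1 - a·x = 2 Σ_{mismatch} |x_l|`. -/
lemma abs_sub_dot (a : Cube n) (x : Fin n → ℤ) :
    (∑ l, |x l|) - dot a x = 2 * ∑ l, (if sn (a l) * x l < 0 then |x l| else 0) := by
  unfold dot
  rw [← Finset.sum_sub_distrib, Finset.mul_sum]
  apply Finset.sum_congr rfl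
  intro l _
  have hs : sn (a l) = 1 ∨ sn (a l) = -1 := by unfold sn; split_ifs <;> simp
  rcases hs with h | h <;> rw [h] <;> split_ifs with h2
  · rw [abs_of_neg (by linarith)]; ring
  · rw [abs_of_nonneg (by linarith)]; ring
  · rw [abs_of_pos (by linarith)]; ring
  · rw [abs_of_nonpos (by linarith)]; ring

lemma prod_mm (M : ℕ) (a : Cube n) (x : Fin n → ℤ) :
    ∏ l, mm M (x l) (a l) =
      Real.exp ((((∑ l, |x l|) - dot a x : ℤ) : ℝ) / (2 * M) / 4) := by
  rw [abs_sub_dot]
  push_cast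
  rw [show (2 * ∑ l, (if sn (a l) * x l < 0 then |(x l : ℝ)| else 0)) / (2 * (M : ℝ)) / 4 =
    ∑ l, (if sn (a l) * x l < 0 then |(x l : ℝ)| else 0) / (4 * M) by
      rw [← Finset.sum_div]; ring, Real.exp_sum]
  apply Finset.prod_congr rfl
  intro l _
  unfold mm
  split_ifs with h
  · rfl
  · simp

lemma best_le (P : Pot n A) (x : Fin n → ℤ) (a : Cube n) (ha : a ∈ A) :
    (dot a x : ℝ) - P.c a ≤ (dot (P.T x) x : ℝ) - P.c (P.T x) := by
  by_cases h : a = P.T x
  · rw [h]
  · exact (P.best x a ha h).le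

/-- `η(x) + ζ(a) ≤ (|x|_1 - a·x)/2M` for all `a ∈ A`. -/
lemma eta_add_zeta_le (P : Pot n A) (M : ℕ) (hM : 1 ≤ M) (x : Fin n → ℤ) (a : Cube n) (ha : a ∈ A) :
    P.eta M x + P.zeta M a ≤ (((∑ l, |x l|) - dot a x : ℤ) : ℝ) / (2 * M) := by
  have hM' : (0 : ℝ) < M := by exact_mod_cast hM
  unfold Pot.eta Pot.zeta
  rw [← add_div]
  apply div_le_div_of_nonneg_right _ (by positivity)
  have := best_le P x a ha
  push_cast
  linarith

/-- `η(x) + ζ(T x) = cost`. -/
lemma eta_add_zeta (P : Pot n A) (M : ℕ) (hM : 1 ≤ M) (x : Fin n → ℤ) :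
    P.eta M x + P.zeta M (P.T x) = P.cost M x := by
  have hM' : (0 : ℝ) < M := by exact_mod_cast hM
  unfold Pot.eta Pot.zeta Pot.cost Pot.D
  rw [← add_div, Finset.sum_filter]
  have h := abs_sub_dot (P.T x) x
  have h' : ((∑ l, |x l| : ℤ) : ℝ) - (dot (P.T x) x : ℝ) =
      2 * ∑ l, (if sn (P.T x l) * x l < 0 then |(x l : ℝ)| else 0) := by
    have := congrArg (fun z : ℤ => (z : ℝ)) h
    push_cast at this ⊢
    exact this
  have e : (((∑ l, |x l| : ℤ) : ℝ) - ((dot (P.T x) x : ℝ) - P.c (P.T x)) + -P.c (P.T x)) =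
      ((∑ l, |x l| : ℤ) : ℝ) - (dot (P.T x) x : ℝ) := by ring
  rw [e, h']
  have : (∑ l, (if sn (P.T x l) * x l < 0 then |(x l : ℝ)| else 0)) =
    (∑ l, (if sn (P.T x l) * x l < 0 then (|x l| : ℝ) else 0)) := rfl
  rw [mul_div_mul_left _ _ (by norm_num : (2 : ℝ) ≠ 0)]

lemma cost_nonneg (P : Pot n A) (M : ℕ) (x : Fin n → ℤ) : 0 ≤ P.cost M x := by
  unfold Pot.cost
  apply div_nonneg _ (Nat.cast_nonneg _)
  exact Finset.sum_nonneg (fun l _ => abs_nonneg _)

/-- The cells partition the grid: sums over the grid of functions of `T x`. -/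
lemma sum_comp_T (P : Pot n A) (M : ℕ) (F : Cube n → ℝ) :
    ∑ x ∈ grid n M, F (P.T x) = ∑ a ∈ A, ((P.cell M a).card : ℝ) * F a := by
  rw [← Finset.sum_fiberwise_of_maps_to (s := grid n M) (t := A) (g := P.T) (fun x _ => P.mem x)]
  apply Finset.sum_congr rfl
  intro a _
  unfold Pot.cell
  rw [← nsmul_eq_mul, ← Finset.sum_const]
  apply Finset.sum_congr rfl
  intro x hx
  rw [(mem_filter.1 hx).2]

lemma cell_pos (P : Pot n A) (M : ℕ) (hn : 1 ≤ n) (hM : 1 ≤ M) (hB : P.Bal M (1 / (2 * n)))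
    (a : Cube n) (ha : a ∈ A) : (P.cell M a).Nonempty := by
  have hn' : (1 : ℝ) ≤ n := by exact_mod_cast hn
  have hM' : (0 : ℝ) < M := by exact_mod_cast hM
  have h := (hB a ha).1
  have h1 : (1 : ℝ) / (2 * n) ≤ 1 / 2 := by
    rw [div_le_div_iff₀ (by positivity) (by norm_num)]; linarith
  have h2 : 0 < (1 - 1 / (2 * (n : ℝ))) * (2 * (M : ℝ) ^ n) := by
    apply mul_pos (by linarith) (by positivity)
  rw [← Finset.card_pos]
  have : (0 : ℝ) < ((P.cell M a).card : ℝ) := by linarith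
  exact_mod_cast this

lemma abs_dot_le (M : ℕ) (a : Cube n) (x : Fin n → ℤ) (hx : x ∈ grid n M) :
    |dot a x| ≤ n * (2 * M) := by
  unfold dot
  calc |∑ l, sn (a l) * x l| ≤ ∑ l, |sn (a l) * x l| := Finset.abs_sum_le_sum_abs _ _
    _ ≤ ∑ l : Fin n, (2 * M : ℤ) := by
        apply Finset.sum_le_sum
        intro l _
        have h1 : x l ∈ box M := by
          simp only [grid, Fintype.mem_piFinset] at hx; exact hx l
        simp only [box, mem_filter, mem_Icc] at h1
        have hs : |sn (a l)| = 1 := by unfold sn; split_ifs <;> simp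
        rw [abs_mul, hs, one_mul, abs_le]
        constructor <;> omega
    _ = n * (2 * M) := by simp

lemma zeta_sub_le (P : Pot n A) (M : ℕ) (hn : 1 ≤ n) (hM : 1 ≤ M) (hB : P.Bal M (1 / (2 * n)))
    (a b : Cube n) (ha : a ∈ A) (hb : b ∈ A) : P.zeta M a - P.zeta M b ≤ 2 * n := by
  have hM' : (0 : ℝ) < M := by exact_mod_cast hM
  obtain ⟨x, hx⟩ := cell_pos P M hn hM hB b hb
  unfold Pot.cell at hx
  obtain ⟨hxg, hxT⟩ := mem_filter.1 hx
  have h := best_le P x a ha
  rw [hxT] at h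
  have d1 := abs_dot_le M a x hxg
  have d2 := abs_dot_le M b x hxg
  rw [abs_le] at d1 d2
  have d1' : -((n : ℝ) * (2 * M)) ≤ (dot a x : ℝ) := by exact_mod_cast d1.1
  have d2' : (dot b x : ℝ) ≤ (n : ℝ) * (2 * M) := by exact_mod_cast d2.2
  unfold Pot.zeta
  rw [← sub_div, div_le_iff₀ (by positivity)]
  linarith

lemma abs_zeta_le (P : Pot n A) (M : ℕ) (hn : 1 ≤ n) (hM : 1 ≤ M) (hB : P.Bal M (1 / (2 * n)))
    (hA : A.Nonempty) (a : Cube n) (ha : a ∈ A) : |P.zeta M a| ≤ 2 * n := by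
  have hM' : (0 : ℝ) < M := by exact_mod_cast hM
  have hcard : (0 : ℝ) < A.card := by exact_mod_cast Finset.card_pos.2 hA
  have hz : ∑ b ∈ A, P.zeta M b = 0 := by
    unfold Pot.zeta
    rw [← Finset.sum_div, Finset.sum_neg_distrib, P.norm]; simp
  have h1 : ∑ b ∈ A, (P.zeta M a - P.zeta M b) = A.card * P.zeta M a := by
    rw [Finset.sum_sub_distrib, hz, Finset.sum_const, nsmul_eq_mul]; ring
  have h2 : ∑ b ∈ A, (P.zeta M a - P.zeta M b) ≤ A.card * (2 * n) := by
    rw [← nsmul_eq_mul, ← Finset.sum_const]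
    exact Finset.sum_le_sum (fun b hb => zeta_sub_le P M hn hM hB a b ha hb)
  have h3 : ∑ b ∈ A, (P.zeta M b - P.zeta M a) ≤ A.card * (2 * n) := by
    rw [← nsmul_eq_mul, ← Finset.sum_const]
    exact Finset.sum_le_sum (fun b hb => zeta_sub_le P M hn hM hB b a hb ha)
  have h4 : ∑ b ∈ A, (P.zeta M b - P.zeta M a) = -(A.card * P.zeta M a) := by
    rw [Finset.sum_sub_distrib, hz, Finset.sum_const, nsmul_eq_mul]; ring
  rw [abs_le]
  constructor
  · have : (A.card : ℝ) * (-(2 * n)) ≤ A.card * P.zeta M a := by linarith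
    exact le_of_mul_le_mul_left this hcard
  · have : (A.card : ℝ) * P.zeta M a ≤ A.card * (2 * n) := by linarith
    exact le_of_mul_le_mul_left this hcard

open Classical in
/-- Property (τ) for the potentials. -/
lemma tau (P : Pot n A) (M : ℕ) (hM : 1 ≤ M) :
    (∑ x ∈ grid n M, Real.exp (P.eta M x / 4)) * (∑ a ∈ A, Real.exp (P.zeta M a / 4)) ≤
      (4 * ((M : ℝ) + 1)) ^ n := by
  have h := tens M hM n 1 zero_le_one (fun x => Real.exp (P.eta M x / 4))
    (fun a => if a ∈ A then Real.exp (P.zeta M a / 4) else 0) ?_ ?_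
  · rw [mul_one] at h
    convert h using 2
    rw [Finset.sum_ite_mem, Finset.univ_inter]
  · intro a
    split_ifs
    · exact (Real.exp_pos _).le
    · exact le_rfl
  · intro x hx a
    rw [one_mul, prod_mm]
    split_ifs with ha
    · rw [← Real.exp_add]
      apply Real.exp_le_exp.2
      have := eta_add_zeta_le P M hM x a ha
      linarith
    · rw [mul_zero]; exact (Real.exp_pos _).le

theorem t_TAIL : S_TAIL := by
  refine ⟨12, by norm_num, ?_⟩
  intro n hn A hA M hMC P hB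
  have hn' : (1 : ℝ) ≤ n := by exact_mod_cast hn
  have hM1 : (1 : ℝ) ≤ M := by nlinarith
  have hM : 1 ≤ M := by exact_mod_cast hM1
  have hM' : (0 : ℝ) < M := by linarith
  have hApos : 0 < A.card := by
    have : 0 < 2 ^ n := by positivity
    omega
  have hAne : A.Nonempty := Finset.card_pos.1 hApos
  have hAr : (2 : ℝ) * A.card = 2 ^ n := by exact_mod_cast hA
  set SE := ∑ x ∈ grid n M, Real.exp (P.eta M x / 4) with hSE
  set SZ := ∑ a ∈ A, Real.exp (P.zeta M a / 4) with hSZ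
  have htau : SE * SZ ≤ (4 * ((M : ℝ) + 1)) ^ n := tau P M hM
  -- (1 + 1/M)^n ≤ 2
  have hK : (4 * ((M : ℝ) + 1)) ^ n ≤ 2 ^ n * (2 * M) ^ n * (5 / 4) := by
    have e : (4 * ((M : ℝ) + 1)) = 2 * (2 * M) * (1 + 1 / M) := by field_simp; ring
    rw [e, mul_pow, mul_pow]
    apply mul_le_mul_of_nonneg_left _ (by positivity)
    calc (1 + 1 / (M : ℝ)) ^ n ≤ (Real.exp (1 / M)) ^ n := by
          apply pow_le_pow_left₀ (by positivity)
          have := Real.add_one_le_exp (1 / (M : ℝ))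
          linarith
      _ = Real.exp (n * (1 / M)) := by rw [← Real.exp_nat_mul]
      _ ≤ Real.exp (1 / 12) := by
          apply Real.exp_le_exp.2
          rw [mul_one_div, div_le_div_iff₀ hM' (by norm_num)]
          linarith
      _ ≤ 5 / 4 := by
          have : Real.exp (1 / 12) ^ 12 ≤ (5 / 4 : ℝ) ^ 12 := by
            rw [← Real.exp_nat_mul]
            have h1 := Real.exp_one_lt_d9
            have h2 : ((12 : ℕ) : ℝ) * (1 / 12) = 1 := by norm_num
            rw [h2]
            have h3 : (2.7182818286 : ℝ) ≤ (5 / 4 : ℝ) ^ 12 := by norm_num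
            linarith
          exact le_of_pow_le_pow_left₀ (by norm_num) (by norm_num) this
  have hz : ∑ b ∈ A, P.zeta M b = 0 := by
    unfold Pot.zeta
    rw [← Finset.sum_div, Finset.sum_neg_distrib, P.norm]; simp
  have hSZlow : (A.card : ℝ) ≤ SZ := by
    have : ∑ a ∈ A, (P.zeta M a / 4 + 1) ≤ SZ :=
      Finset.sum_le_sum (fun a _ => Real.add_one_le_exp _)
    rw [Finset.sum_add_distrib, ← Finset.sum_div, hz, Finset.sum_const, nsmul_eq_mul] at this
    linarith
  have hcardpos : (0 : ℝ) < A.card := by exact_mod_cast hApos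
  have hSEpos : 0 ≤ SE := Finset.sum_nonneg (fun _ _ => (Real.exp_pos _).le)
  have hG : (0 : ℝ) < (2 * M) ^ n := by positivity
  have hgc : ((grid n M).card : ℝ) = (2 * M) ^ n := by
    rw [card_grid]; push_cast; ring
  -- first bound
  have hSE1 : SE ≤ (5 / 2) * (2 * M) ^ n := by
    have h1 : SE * A.card ≤ 2 * A.card * (2 * M) ^ n * (5 / 4) := by
      calc SE * A.card ≤ SE * SZ := mul_le_mul_of_nonneg_left hSZlow hSEpos
        _ ≤ _ := htau
        _ ≤ _ := hK
        _ = _ := by rw [hAr]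
    have h2 : SE * A.card ≤ ((5 / 2) * (2 * M) ^ n) * A.card := by linarith
    exact le_of_mul_le_mul_right h2 hcardpos
  refine ⟨hSE1.trans ?_, ?_⟩
  · apply mul_le_mul_of_nonneg_right (by norm_num) hG.le
  -- the mean of ζ(T x)
  have hzT : ∑ x ∈ grid n M, P.zeta M (P.T x) ≤ (2 * M) ^ n := by
    rw [sum_comp_T P M (P.zeta M)]
    have h1 : ∑ a ∈ A, ((P.cell M a).card : ℝ) * P.zeta M a =
        ∑ a ∈ A, (((P.cell M a).card : ℝ) - 2 * (M : ℝ) ^ n) * P.zeta M a := by
      simp_rw [sub_mul]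
      rw [Finset.sum_sub_distrib, ← Finset.mul_sum, hz]; ring
    rw [h1]
    calc ∑ a ∈ A, (((P.cell M a).card : ℝ) - 2 * (M : ℝ) ^ n) * P.zeta M a
        ≤ ∑ a ∈ A, (1 / (2 * n) * (2 * (M : ℝ) ^ n)) * (2 * n) := by
          apply Finset.sum_le_sum
          intro a ha
          have hb := hB a ha
          have hz2 := abs_zeta_le P M hn hM hB hAne a ha
          calc _ ≤ |(((P.cell M a).card : ℝ) - 2 * (M : ℝ) ^ n) * P.zeta M a| := le_abs_self _
            _ = |(((P.cell M a).card : ℝ) - 2 * (M : ℝ) ^ n)| * |P.zeta M a| := abs_mul _ _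
            _ ≤ _ := by
                apply mul_le_mul _ hz2 (abs_nonneg _) (by positivity)
                rw [abs_le]
                constructor <;> linarith [hb.1, hb.2]
      _ = (2 * M) ^ n := by
          rw [Finset.sum_const, nsmul_eq_mul]
          have : (1 / (2 * (n : ℝ)) * (2 * (M : ℝ) ^ n)) * (2 * n) = 2 * (M : ℝ) ^ n := by
            field_simp
          rw [this, mul_pow, ← hAr]; ring
  have hSElow : (3 / 4) * (2 * M) ^ n ≤ SE := by
    have h1 : ∑ x ∈ grid n M, (P.eta M x / 4 + 1) ≤ SE :=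
      Finset.sum_le_sum (fun x _ => Real.add_one_le_exp _)
    rw [Finset.sum_add_distrib, ← Finset.sum_div, Finset.sum_const, nsmul_eq_mul, mul_one, hgc] at h1
    have h2 : ∑ x ∈ grid n M, (P.eta M x + P.zeta M (P.T x)) = ∑ x ∈ grid n M, P.cost M x :=
      Finset.sum_congr rfl (fun x _ => eta_add_zeta P M hM x)
    rw [Finset.sum_add_distrib] at h2
    have h3 : 0 ≤ ∑ x ∈ grid n M, P.cost M x := Finset.sum_nonneg (fun x _ => cost_nonneg P M x)
    linarith
  have hSZup : SZ ≤ (5 / 3) * 2 ^ n := by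
    have hSZ0 : 0 ≤ SZ := Finset.sum_nonneg (fun _ _ => (Real.exp_pos _).le)
    have h1 : (3 / 4) * (2 * M) ^ n * SZ ≤ 2 ^ n * (2 * M) ^ n * (5 / 4) :=
      (mul_le_mul_of_nonneg_right hSElow hSZ0).trans (htau.trans hK)
    have h2 : (2 * (M : ℝ)) ^ n * SZ ≤ (2 * M) ^ n * ((5 / 3) * 2 ^ n) := by linarith
    exact le_of_mul_le_mul_left h2 hG
  rw [sum_comp_T P M (fun a => Real.exp (P.zeta M a / 4))]
  calc ∑ a ∈ A, ((P.cell M a).card : ℝ) * Real.exp (P.zeta M a / 4)
      ≤ ∑ a ∈ A, (3 * (M : ℝ) ^ n) * Real.exp (P.zeta M a / 4) := by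
        apply Finset.sum_le_sum
        intro a ha
        apply mul_le_mul_of_nonneg_right _ (Real.exp_pos _).le
        have hb := (hB a ha).2
        have h1 : (1 : ℝ) / (2 * n) ≤ 1 / 2 := by
          rw [div_le_div_iff₀ (by positivity) (by norm_num)]; linarith
        have h2 : (1 + 1 / (2 * (n : ℝ))) * (2 * (M : ℝ) ^ n) ≤ (1 + 1 / 2) * (2 * (M : ℝ) ^ n) := by
          apply mul_le_mul_of_nonneg_right _ (by positivity)
          linarith
        linarith
    _ = 3 * (M : ℝ) ^ n * SZ := by rw [Finset.mul_sum]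
    _ ≤ 3 * (M : ℝ) ^ n * ((5 / 3) * 2 ^ n) := by
        apply mul_le_mul_of_nonneg_left hSZup (by positivity)
    _ = 5 * (2 * M) ^ n := by rw [mul_pow]; ring
    _ ≤ 12 * (2 * M) ^ n := by
        apply mul_le_mul_of_nonneg_right (by norm_num) hG.le

end Pool.Agent.K1H44.ST
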